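import Pool.Agent.helper76.UF.Spec

set_option autoImplicit false

namespace Pool.Agent.UF

open Finset Polynomial NumberField

theorem QUO : QUO_stmt := by
  intro N a R _ x hC y
  obtain ⟨c, hc⟩ := hC.2.1 y
  refine ⟨∑ i ∈ range N, c i * (a : ℤ) ^ i, ?_⟩
  have e : y - ((∑ i ∈ range N, c i * (a : ℤ) ^ i : ℤ) : R) = ∑ i ∈ range N, (c i : R) * (x ^ i - (a : R) ^ i) := by
    rw [hc]
    push_cast
    rw [← Finset.sum_sub_distrib]
    exact Finset.sum_congr rfl fun i _ => by ring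
  rw [e]
  refine Finset.dvd_sum fun i _ => Dvd.dvd.mul_left ?_ _
  have h1 : (a : R) - x ∣ (a : R) ^ i - x ^ i := sub_dvd_pow_sub_pow _ _ i
  have h2 : x ^ i - (a : R) ^ i = -((a : R) ^ i - x ^ i) := by ring
  unfold ff
  rw [pow_one, h2]
  exact (dvd_neg).2 h1

end Pool.Agent.UF
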