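import Pool.Agent.helper76.UF.Spec

set_option autoImplicit false

namespace Pool.Agent.UF

open Finset Polynomial NumberField

theorem UFD (h1 : BAS_stmt) (h2 : QUK_stmt) (h3 : IRR_stmt) : UFD_stmt := by
  intro m K _ _ _ hU
  have hζ := IsCyclotomicExtension.zeta_spec (2 ^ (m + 1)) ℚ K
  have hz := hζ.toInteger_isPrimitiveRoot
  set z : 𝓞 K := hζ.toInteger with hzdef
  have hC : Cyc (1 * 2 ^ m) z := by
    rw [one_mul]
    exact h1 m K z hz
  obtain ⟨q1, q2⟩ := h2 (2 ^ m) 1 2 (𝓞 K) z Nat.one_le_two_pow le_rfl hC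
  have hff : ff 2 z 1 = 2 - z := by
    unfold ff
    rw [pow_one]
    norm_num
  rw [hff] at q1 q2
  have hp : Prime (2 - z) := (h3 m K z hz).prime
  have hF2 : 2 ≤ fer m := by
    have : 1 ≤ 2 ^ (2 ^ m) := Nat.one_le_two_pow
    unfold fer
    omega
  by_contra hnp
  obtain ⟨u, v, hu, hv, huv⟩ := (Nat.not_prime_iff_exists_mul_eq hF2).1 hnp
  have hu0 : 0 < u := by
    rcases Nat.eq_zero_or_pos u with h | h
    · subst h
      rw [zero_mul] at huv
      omega
    · exact h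
  have hv0 : 0 < v := by
    rcases Nat.eq_zero_or_pos v with h | h
    · subst h
      rw [mul_zero] at huv
      omega
    · exact h
  have key : ∀ w : ℕ, 0 < w → w < fer m → ¬ (2 - z) ∣ (w : 𝓞 K) := by
    intro w hw0 hw h
    have h4 : ((2 ^ (2 ^ m) + 1 : ℕ) : ℤ) ∣ ((w : ℕ) : ℤ) := by
      refine q1 (w : ℤ) ?_
      rw [Int.cast_natCast]
      exact h
    have h5 : fer m ∣ w := Int.natCast_dvd_natCast.1 h4
    have h6 := Nat.le_of_dvd hw0 h5
    omega
  have h7 : (2 - z) ∣ (u : 𝓞 K) * (v : 𝓞 K) := by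
    have h8 : (u : 𝓞 K) * (v : 𝓞 K) = ((2 ^ (2 ^ m) + 1 : ℕ) : 𝓞 K) := by
      rw [← Nat.cast_mul, huv]
      rfl
    rw [h8]
    exact q2
  rcases hp.dvd_or_dvd h7 with h | h
  · exact key u hu0 hu h
  · exact key v hv0 hv h

end Pool.Agent.UF
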